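import Pool.Agent.R798.Toads.Code

/-!
# The powers of four
-/

set_option autoImplicit false

namespace Pool.Agent.R798.Toads

/-- the first twenty powers of four -/
def P20 : List ℕ :=
  [1, 4, 16, 64, 256, 1024, 4096, 16384, 65536, 262144, 1048576, 4194304, 16777216, 67108864,
    268435456, 1073741824, 4294967296, 17179869184, 68719476736, 274877906944]

theorem pows_eq : pows 20 = P20 := by decide

end Pool.Agent.R798.Toads
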