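import Pool.Agent.R798.Toads.Code
import Pool.Agent.R798.Toads.Pows
import Pool.Agent.R798.Toads.DataA

/-!
# Kernel check of the set of positions won by Left
-/

set_option autoImplicit false
set_option maxRecDepth 100000

namespace Pool.Agent.R798.Toads

theorem ha32 : a32.all (chk0 aAll P20) = true := by decide +kernel

theorem ha33 : a33.all (chk0 aAll P20) = true := by decide +kernel

theorem ha34 : a34.all (chk0 aAll P20) = true := by decide +kernel

theorem ha35 : a35.all (chk0 aAll P20) = true := by decide +kernel

theorem ha36 : a36.all (chk0 aAll P20) = true := by decide +kernel

theorem ha37 : a37.all (chk0 aAll P20) = true := by decide +kernel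

theorem ha38 : a38.all (chk0 aAll P20) = true := by decide +kernel

theorem ha39 : a39.all (chk0 aAll P20) = true := by decide +kernel

theorem ha40 : a40.all (chk0 aAll P20) = true := by decide +kernel

theorem ha41 : a41.all (chk0 aAll P20) = true := by decide +kernel

theorem ha42 : a42.all (chk0 aAll P20) = true := by decide +kernel

theorem ha43 : a43.all (chk0 aAll P20) = true := by decide +kernel

theorem ha44 : a44.all (chk0 aAll P20) = true := by decide +kernel

theorem ha45 : a45.all (chk0 aAll P20) = true := by decide +kernel

theorem ha46 : a46.all (chk0 aAll P20) = true := by decide +kernel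

theorem ha47 : a47.all (chk0 aAll P20) = true := by decide +kernel

theorem ha48 : a48.all (chk0 aAll P20) = true := by decide +kernel

theorem ha49 : a49.all (chk0 aAll P20) = true := by decide +kernel

theorem ha50 : a50.all (chk0 aAll P20) = true := by decide +kernel

theorem ha51 : a51.all (chk0 aAll P20) = true := by decide +kernel

theorem ha52 : a52.all (chk0 aAll P20) = true := by decide +kernel

theorem ha53 : a53.all (chk0 aAll P20) = true := by decide +kernel

theorem ha54 : a54.all (chk0 aAll P20) = true := by decide +kernel

theorem ha55 : a55.all (chk0 aAll P20) = true := by decide +kernel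

theorem ha56 : a56.all (chk0 aAll P20) = true := by decide +kernel

theorem ha57 : a57.all (chk0 aAll P20) = true := by decide +kernel

theorem ha58 : a58.all (chk0 aAll P20) = true := by decide +kernel

theorem ha59 : a59.all (chk0 aAll P20) = true := by decide +kernel

theorem ha60 : a60.all (chk0 aAll P20) = true := by decide +kernel

theorem ha61 : a61.all (chk0 aAll P20) = true := by decide +kernel

theorem ha62 : a62.all (chk0 aAll P20) = true := by decide +kernel

theorem ha63 : a63.all (chk0 aAll P20) = true := by decide +kernel

end Pool.Agent.R798.Toads
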