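import Pool.Agent.R798.Toads.Code
import Pool.Agent.R798.Toads.Pows
import Pool.Agent.R798.Toads.DataA
import Pool.Agent.R798.Toads.DataB

/-!
# Kernel check of the set of positions won by Left
-/

set_option autoImplicit false
set_option maxRecDepth 100000

namespace Pool.Agent.R798.Toads

theorem hb0 : b0.all (chk1 aAll bAll P20) = true := by decide +kernel

theorem hb1 : b1.all (chk1 aAll bAll P20) = true := by decide +kernel

theorem hb2 : b2.all (chk1 aAll bAll P20) = true := by decide +kernel

theorem hb3 : b3.all (chk1 aAll bAll P20) = true := by decide +kernel

theorem hb4 : b4.all (chk1 aAll bAll P20) = true := by decide +kernel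

theorem hb5 : b5.all (chk1 aAll bAll P20) = true := by decide +kernel

theorem hb6 : b6.all (chk1 aAll bAll P20) = true := by decide +kernel

theorem hb7 : b7.all (chk1 aAll bAll P20) = true := by decide +kernel

theorem hb8 : b8.all (chk1 aAll bAll P20) = true := by decide +kernel

theorem hb9 : b9.all (chk1 aAll bAll P20) = true := by decide +kernel

theorem hb10 : b10.all (chk1 aAll bAll P20) = true := by decide +kernel

theorem hb11 : b11.all (chk1 aAll bAll P20) = true := by decide +kernel

theorem hb12 : b12.all (chk1 aAll bAll P20) = true := by decide +kernel

theorem hb13 : b13.all (chk1 aAll bAll P20) = true := by decide +kernel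

theorem hb14 : b14.all (chk1 aAll bAll P20) = true := by decide +kernel

theorem hb15 : b15.all (chk1 aAll bAll P20) = true := by decide +kernel

theorem hb16 : b16.all (chk1 aAll bAll P20) = true := by decide +kernel

theorem hb17 : b17.all (chk1 aAll bAll P20) = true := by decide +kernel

theorem hb18 : b18.all (chk1 aAll bAll P20) = true := by decide +kernel

theorem hb19 : b19.all (chk1 aAll bAll P20) = true := by decide +kernel

theorem hb20 : b20.all (chk1 aAll bAll P20) = true := by decide +kernel

theorem hb21 : b21.all (chk1 aAll bAll P20) = true := by decide +kernel

theorem hb22 : b22.all (chk1 aAll bAll P20) = true := by decide +kernel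

theorem hb23 : b23.all (chk1 aAll bAll P20) = true := by decide +kernel

theorem hb24 : b24.all (chk1 aAll bAll P20) = true := by decide +kernel

theorem hb25 : b25.all (chk1 aAll bAll P20) = true := by decide +kernel

theorem hb26 : b26.all (chk1 aAll bAll P20) = true := by decide +kernel

theorem hb27 : b27.all (chk1 aAll bAll P20) = true := by decide +kernel

theorem hb28 : b28.all (chk1 aAll bAll P20) = true := by decide +kernel

theorem hb29 : b29.all (chk1 aAll bAll P20) = true := by decide +kernel

theorem hb30 : b30.all (chk1 aAll bAll P20) = true := by decide +kernel

theorem hb31 : b31.all (chk1 aAll bAll P20) = true := by decide +kernel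

end Pool.Agent.R798.Toads
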