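import Pool.Agent.R798.Toads.Code
import Pool.Agent.R798.Toads.Pows
import Pool.Agent.R798.Toads.DataA
import Pool.Agent.R798.Toads.DataB

/-!
# Kernel check of the set of positions won by Left
-/

set_option autoImplicit false
set_option maxRecDepth 100000

namespace Pool.Agent.R798.Toads

theorem hb32 : b32.all (chk1 aAll bAll P20) = true := by decide +kernel

theorem hb33 : b33.all (chk1 aAll bAll P20) = true := by decide +kernel

theorem hb34 : b34.all (chk1 aAll bAll P20) = true := by decide +kernel

theorem hb35 : b35.all (chk1 aAll bAll P20) = true := by decide +kernel

theorem hb36 : b36.all (chk1 aAll bAll P20) = true := by decide +kernel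

theorem hb37 : b37.all (chk1 aAll bAll P20) = true := by decide +kernel

theorem hb38 : b38.all (chk1 aAll bAll P20) = true := by decide +kernel

theorem hb39 : b39.all (chk1 aAll bAll P20) = true := by decide +kernel

theorem hb40 : b40.all (chk1 aAll bAll P20) = true := by decide +kernel

theorem hb41 : b41.all (chk1 aAll bAll P20) = true := by decide +kernel

theorem hb42 : b42.all (chk1 aAll bAll P20) = true := by decide +kernel

theorem hb43 : b43.all (chk1 aAll bAll P20) = true := by decide +kernel

theorem hb44 : b44.all (chk1 aAll bAll P20) = true := by decide +kernel

theorem hb45 : b45.all (chk1 aAll bAll P20) = true := by decide +kernel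

theorem hb46 : b46.all (chk1 aAll bAll P20) = true := by decide +kernel

theorem hb47 : b47.all (chk1 aAll bAll P20) = true := by decide +kernel

theorem hb48 : b48.all (chk1 aAll bAll P20) = true := by decide +kernel

theorem hb49 : b49.all (chk1 aAll bAll P20) = true := by decide +kernel

theorem hb50 : b50.all (chk1 aAll bAll P20) = true := by decide +kernel

theorem hb51 : b51.all (chk1 aAll bAll P20) = true := by decide +kernel

theorem hb52 : b52.all (chk1 aAll bAll P20) = true := by decide +kernel

theorem hb53 : b53.all (chk1 aAll bAll P20) = true := by decide +kernel

theorem hb54 : b54.all (chk1 aAll bAll P20) = true := by decide +kernel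

theorem hb55 : b55.all (chk1 aAll bAll P20) = true := by decide +kernel

theorem hb56 : b56.all (chk1 aAll bAll P20) = true := by decide +kernel

theorem hb57 : b57.all (chk1 aAll bAll P20) = true := by decide +kernel

theorem hb58 : b58.all (chk1 aAll bAll P20) = true := by decide +kernel

theorem hb59 : b59.all (chk1 aAll bAll P20) = true := by decide +kernel

theorem hb60 : b60.all (chk1 aAll bAll P20) = true := by decide +kernel

theorem hb61 : b61.all (chk1 aAll bAll P20) = true := by decide +kernel

theorem hb62 : b62.all (chk1 aAll bAll P20) = true := by decide +kernel

theorem hb63 : b63.all (chk1 aAll bAll P20) = true := by decide +kernel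

end Pool.Agent.R798.Toads
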