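import Pool.Agent.R798.Toads.CheckA0
import Pool.Agent.R798.Toads.CheckA1
import Pool.Agent.R798.Toads.CheckB0
import Pool.Agent.R798.Toads.CheckB1

/-!
# The sets of positions pass the tests
-/

set_option autoImplicit false
set_option maxRecDepth 100000

namespace Pool.Agent.R798.Toads

open Pool.Agent.R186 Pool.Agent.R186.NatTree

theorem allNode {p : ℕ → Bool} {l r : NatTree} {v : ℕ} (hl : l.all p = true)
    (hr : r.all p = true) (h : p v = true) : (NatTree.node l v r).all p = true := by
  rw [NatTree.all, h, hl, hr]
  rfl

theorem haAll : aAll.all (chk0 aAll P20) = true :=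
  (allNode (allNode (allNode (allNode (allNode (allNode ha0 ha1 (by decide +kernel)) (allNode ha2 ha3 (by decide +kernel)) (by decide +kernel)) (allNode (allNode ha4 ha5 (by decide +kernel)) (allNode ha6 ha7 (by decide +kernel)) (by decide +kernel)) (by decide +kernel)) (allNode (allNode (allNode ha8 ha9 (by decide +kernel)) (allNode ha10 ha11 (by decide +kernel)) (by decide +kernel)) (allNode (allNode ha12 ha13 (by decide +kernel)) (allNode ha14 ha15 (by decide +kernel)) (by decide +kernel)) (by decide +kernel)) (by decide +kernel)) (allNode (allNode (allNode (allNode ha16 ha17 (by decide +kernel)) (allNode ha18 ha19 (by decide +kernel)) (by decide +kernel)) (allNode (allNode ha20 ha21 (by decide +kernel)) (allNode ha22 ha23 (by decide +kernel)) (by decide +kernel)) (by decide +kernel)) (allNode (allNode (allNode ha24 ha25 (by decide +kernel)) (allNode ha26 ha27 (by decide +kernel)) (by decide +kernel)) (allNode (allNode ha28 ha29 (by decide +kernel)) (allNode ha30 ha31 (by decide +kernel)) (by decide +kernel)) (by decide +kernel)) (by decide +kernel)) (by decide +kernel)) (allNode (allNode (allNode (allNode (allNode ha32 ha33 (by decide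 +kernel)) (allNode ha34 ha35 (by decide +kernel)) (by decide +kernel)) (allNode (allNode ha36 ha37 (by decide +kernel)) (allNode ha38 ha39 (by decide +kernel)) (by decide +kernel)) (by decide +kernel)) (allNode (allNode (allNode ha40 ha41 (by decide +kernel)) (allNode ha42 ha43 (by decide +kernel)) (by decide +kernel)) (allNode (allNode ha44 ha45 (by decide +kernel)) (allNode ha46 ha47 (by decide +kernel)) (by decide +kernel)) (by decide +kernel)) (by decide +kernel)) (allNode (allNode (allNode (allNode ha48 ha49 (by decide +kernel)) (allNode ha50 ha51 (by decide +kernel)) (by decide +kernel)) (allNode (allNode ha52 ha53 (by decide +kernel)) (allNode ha54 ha55 (by decide +kernel)) (by decide +kernel)) (by decide +kernel)) (allNode (allNode (allNode ha56 ha57 (by decide +kernel)) (allNode ha58 ha59 (by decide +kernel)) (by decide +kernel)) (allNode (allNode ha60 ha61 (by decide +kernel)) (allNode ha62 ha63 (by decide +kernel)) (by decide +kernel)) (by decide +kernel)) (by decide +kernel)) (by decide +kernel)) (by decide +kernel))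

theorem hbAll : bAll.all (chk1 aAll bAll P20) = true :=
  (allNode (allNode (allNode (allNode (allNode (allNode hb0 hb1 (by decide +kernel)) (allNode hb2 hb3 (by decide +kernel)) (by decide +kernel)) (allNode (allNode hb4 hb5 (by decide +kernel)) (allNode hb6 hb7 (by decide +kernel)) (by decide +kernel)) (by decide +kernel)) (allNode (allNode (allNode hb8 hb9 (by decide +kernel)) (allNode hb10 hb11 (by decide +kernel)) (by decide +kernel)) (allNode (allNode hb12 hb13 (by decide +kernel)) (allNode hb14 hb15 (by decide +kernel)) (by decide +kernel)) (by decide +kernel)) (by decide +kernel)) (allNode (allNode (allNode (allNode hb16 hb17 (by decide +kernel)) (allNode hb18 hb19 (by decide +kernel)) (by decide +kernel)) (allNode (allNode hb20 hb21 (by decide +kernel)) (allNode hb22 hb23 (by decide +kernel)) (by decide +kernel)) (by decide +kernel)) (allNode (allNode (allNode hb24 hb25 (by decide +kernel)) (allNode hb26 hb27 (by decide +kernel)) (by decide +kernel)) (allNode (allNode hb28 hb29 (by decide +kernel)) (allNode hb30 hb31 (by decide +kernel)) (by decide +kernel)) (by decide +kernel)) (by decide +kernel)) (by decide +kernel)) (allNode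 (allNode (allNode (allNode (allNode hb32 hb33 (by decide +kernel)) (allNode hb34 hb35 (by decide +kernel)) (by decide +kernel)) (allNode (allNode hb36 hb37 (by decide +kernel)) (allNode hb38 hb39 (by decide +kernel)) (by decide +kernel)) (by decide +kernel)) (allNode (allNode (allNode hb40 hb41 (by decide +kernel)) (allNode hb42 hb43 (by decide +kernel)) (by decide +kernel)) (allNode (allNode hb44 hb45 (by decide +kernel)) (allNode hb46 hb47 (by decide +kernel)) (by decide +kernel)) (by decide +kernel)) (by decide +kernel)) (allNode (allNode (allNode (allNode hb48 hb49 (by decide +kernel)) (allNode hb50 hb51 (by decide +kernel)) (by decide +kernel)) (allNode (allNode hb52 hb53 (by decide +kernel)) (allNode hb54 hb55 (by decide +kernel)) (by decide +kernel)) (by decide +kernel)) (allNode (allNode (allNode hb56 hb57 (by decide +kernel)) (allNode hb58 hb59 (by decide +kernel)) (by decide +kernel)) (allNode (allNode hb60 hb61 (by decide +kernel)) (allNode hb62 hb63 (by decide +kernel)) (by decide +kernel)) (by decide +kernel)) (by decide +kernel)) (by decide +kernel)) (by decide +kernel))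

end Pool.Agent.R798.Toads
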