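import Pool.Agent.R798.Toads.Code
import Pool.Agent.R798.Toads.Pows
import Pool.Agent.R798.Toads.DataA

/-!
# Kernel check of the set of positions won by Left
-/

set_option autoImplicit false
set_option maxRecDepth 100000

namespace Pool.Agent.R798.Toads

theorem ha0 : a0.all (chk0 aAll P20) = true := by decide +kernel

theorem ha1 : a1.all (chk0 aAll P20) = true := by decide +kernel

theorem ha2 : a2.all (chk0 aAll P20) = true := by decide +kernel

theorem ha3 : a3.all (chk0 aAll P20) = true := by decide +kernel

theorem ha4 : a4.all (chk0 aAll P20) = true := by decide +kernel

theorem ha5 : a5.all (chk0 aAll P20) = true := by decide +kernel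

theorem ha6 : a6.all (chk0 aAll P20) = true := by decide +kernel

theorem ha7 : a7.all (chk0 aAll P20) = true := by decide +kernel

theorem ha8 : a8.all (chk0 aAll P20) = true := by decide +kernel

theorem ha9 : a9.all (chk0 aAll P20) = true := by decide +kernel

theorem ha10 : a10.all (chk0 aAll P20) = true := by decide +kernel

theorem ha11 : a11.all (chk0 aAll P20) = true := by decide +kernel

theorem ha12 : a12.all (chk0 aAll P20) = true := by decide +kernel

theorem ha13 : a13.all (chk0 aAll P20) = true := by decide +kernel

theorem ha14 : a14.all (chk0 aAll P20) = true := by decide +kernel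

theorem ha15 : a15.all (chk0 aAll P20) = true := by decide +kernel

theorem ha16 : a16.all (chk0 aAll P20) = true := by decide +kernel

theorem ha17 : a17.all (chk0 aAll P20) = true := by decide +kernel

theorem ha18 : a18.all (chk0 aAll P20) = true := by decide +kernel

theorem ha19 : a19.all (chk0 aAll P20) = true := by decide +kernel

theorem ha20 : a20.all (chk0 aAll P20) = true := by decide +kernel

theorem ha21 : a21.all (chk0 aAll P20) = true := by decide +kernel

theorem ha22 : a22.all (chk0 aAll P20) = true := by decide +kernel

theorem ha23 : a23.all (chk0 aAll P20) = true := by decide +kernel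

theorem ha24 : a24.all (chk0 aAll P20) = true := by decide +kernel

theorem ha25 : a25.all (chk0 aAll P20) = true := by decide +kernel

theorem ha26 : a26.all (chk0 aAll P20) = true := by decide +kernel

theorem ha27 : a27.all (chk0 aAll P20) = true := by decide +kernel

theorem ha28 : a28.all (chk0 aAll P20) = true := by decide +kernel

theorem ha29 : a29.all (chk0 aAll P20) = true := by decide +kernel

theorem ha30 : a30.all (chk0 aAll P20) = true := by decide +kernel

theorem ha31 : a31.all (chk0 aAll P20) = true := by decide +kernel

end Pool.Agent.R798.Toads
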