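import Pool.Agent.R798.Toads.Defs
import Pool.Agent.R186.NatTree

/-!
# Encoding of positions by natural numbers and the test for a winning set
-/

set_option autoImplicit false

namespace Pool.Agent.R798.Toads

open Pool.Agent.R186 Sq

/-! ## Codes -/

/-- the base 4 digit of a square -/
def dg : Sq → ℕ
  | toad => 1
  | frog => 2
  | empty => 3

/-- the code of a position -/
def code : List Sq → ℕ
  | [] => 0
  | x :: v => dg x + 4 * code v

theorem dg_lt (x : Sq) : dg x < 4 := by cases x <;> decide

theorem code_append (u v : List Sq) : code (u ++ v) = code u + 4 ^ u.length * code v := by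
  induction u with
  | nil => simp [code]
  | cons x u ih =>
    simp only [List.cons_append, code, ih, List.length_cons, pow_succ]
    ring

theorem code_lt (u : List Sq) : code u < 4 ^ u.length := by
  induction u with
  | nil => simp [code]
  | cons x u ih =>
    have := dg_lt x
    simp only [code, List.length_cons, pow_succ]
    omega

theorem code_div (u v : List Sq) : code (u ++ v) / 4 ^ u.length = code v := by
  rw [code_append, Nat.add_mul_div_left _ _ (by positivity), Nat.div_eq_of_lt (code_lt u), zero_add]

theorem code_drop (p : List Sq) (i : ℕ) : code (p.drop i) = code p / 4 ^ i := by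
  induction i generalizing p with
  | zero => simp
  | succ i ih =>
    cases p with
    | nil => simp [code]
    | cons x v =>
      rw [List.drop_succ_cons, ih, code, pow_succ', ← Nat.div_div_eq_div_mul]
      congr 1
      have := dg_lt x
      omega

/-- the powers of four used by the tests -/
def pows (n : ℕ) : List ℕ := (List.range n).map (fun i => 4 ^ i)

/-! ## Windows -/

theorem window_te {l : List Sq} (h : code l % 16 = 13) : ∃ v, l = toad :: empty :: v := by
  match l with
  | [] => simp [code] at h
  | [x] => cases x <;> simp [code, dg] at h
  | x :: y :: v =>
    cases x <;> cases y <;> simp only [code, dg] at h <;> first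
      | exact ⟨v, rfl⟩
      | omega

theorem window_tfe {l : List Sq} (h : code l % 64 = 57) :
    ∃ v, l = toad :: frog :: empty :: v := by
  match l with
  | [] => simp [code] at h
  | [x] => cases x <;> simp [code, dg] at h
  | [x, y] => cases x <;> cases y <;> simp [code, dg] at h
  | x :: y :: z :: v =>
    cases x <;> cases y <;> cases z <;> simp only [code, dg] at h <;> first
      | exact ⟨v, rfl⟩
      | omega

/-! ## The tests -/

/-- pass the value of a number to a test -/
def force (f : ℕ → Bool) : ℕ → Bool
  | 0 => f 0
  | n + 1 => f (n + 1)

theorem force_eq (f : ℕ → Bool) (n : ℕ) : force f n = f n := by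
  cases n <;> rfl

/-- some move of Left from the position with code `c` leads into the set `t` -/
def lOk (t : NatTree) (c : ℕ) : List ℕ → Bool
  | [] => false
  | w :: ws =>
    (bif Nat.beq (Nat.mod (Nat.div c w) 16) 13 then force t.mem (Nat.sub c (Nat.mul 6 w))
      else bif Nat.beq (Nat.mod (Nat.div c w) 64) 57 then force t.mem (Nat.sub c (Nat.mul 30 w))
      else false) || lOk t c ws

/-- every move of Right from the position with code `c` leads to a position which passes the
test `ok` -/
def rOk (ok : ℕ → Bool) (c : ℕ) : List ℕ → Bool
  | [] => true
  | w :: ws =>
    (bif Nat.beq (Nat.mod (Nat.div c w) 16) 11 then force ok (Nat.add c (Nat.mul 3 w))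
      else bif Nat.beq (Nat.mod (Nat.div c w) 64) 39 then force ok (Nat.add c (Nat.mul 15 w))
      else true) && rOk ok c ws

theorem lOk_spec {t : NatTree} {p : List Sq} {n : ℕ} (h : lOk t (code p) (pows n) = true) :
    ∃ q, LeftMove p q ∧ t.mem (code q) = true := by
  unfold pows at h
  generalize List.range n = L at h
  induction L with
  | nil => simp [lOk] at h
  | cons i L ih =>
    rw [List.map_cons, lOk, Bool.or_eq_true] at h
    rcases h with h | h
    · have hs : code (p.drop i) = code p / 4 ^ i := code_drop p i
      have hp : p.take i ++ p.drop i = p := List.take_append_drop i p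
      cases h1 : Nat.beq (Nat.mod (Nat.div (code p) (4 ^ i)) 16) 13 with
      | true =>
        rw [h1, cond_true, force_eq] at h
        have h1' : code p / 4 ^ i % 16 = 13 := Nat.eq_of_beq_eq_true h1
        rw [← hs] at h1'
        obtain ⟨v, hv⟩ := window_te h1'
        have hlen : (p.take i).length = i := by
          rw [List.length_take]
          have : 0 < (p.drop i).length := by rw [hv]; simp
          rw [List.length_drop] at this
          omega
        refine ⟨p.take i ++ empty :: toad :: v, ?_, ?_⟩
        · conv_lhs => rw [← hp, hv]
          exact LeftMove.step _ _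
        · have e : code p = code (p.take i) + 4 ^ i * (13 + 16 * code v) := by
            conv_lhs => rw [← hp, hv, code_append, hlen]
            simp only [code, dg]
            ring
          have e2 : code (p.take i ++ empty :: toad :: v)
              = code (p.take i) + 4 ^ i * (7 + 16 * code v) := by
            rw [code_append, hlen]
            simp only [code, dg]
            ring
          rw [e2]
          have e3 : Nat.sub (code p) (Nat.mul 6 (4 ^ i))
              = code (p.take i) + 4 ^ i * (7 + 16 * code v) := by
            change code p - 6 * 4 ^ i = _
            rw [e]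
            generalize 4 ^ i = w
            have : w * (13 + 16 * code v) = w * (7 + 16 * code v) + 6 * w := by ring
            omega
          rw [← e3]
          exact h
      | false =>
        rw [h1, cond_false] at h
        cases h2 : Nat.beq (Nat.mod (Nat.div (code p) (4 ^ i)) 64) 57 with
        | false =>
          rw [h2, cond_false] at h
          exact absurd h (by simp)
        | true =>
          rw [h2, cond_true, force_eq] at h
          have h2' : code p / 4 ^ i % 64 = 57 := Nat.eq_of_beq_eq_true h2
          rw [← hs] at h2'
          obtain ⟨v, hv⟩ := window_tfe h2'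
          have hlen : (p.take i).length = i := by
            rw [List.length_take]
            have : 0 < (p.drop i).length := by rw [hv]; simp
            rw [List.length_drop] at this
            omega
          refine ⟨p.take i ++ empty :: frog :: toad :: v, ?_, ?_⟩
          · conv_lhs => rw [← hp, hv]
            exact LeftMove.jump _ _
          · have e : code p = code (p.take i) + 4 ^ i * (57 + 64 * code v) := by
              conv_lhs => rw [← hp, hv, code_append, hlen]
              simp only [code, dg]
              ring
            have e2 : code (p.take i ++ empty :: frog :: toad :: v)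
                = code (p.take i) + 4 ^ i * (27 + 64 * code v) := by
              rw [code_append, hlen]
              simp only [code, dg]
              ring
            rw [e2]
            have e3 : Nat.sub (code p) (Nat.mul 30 (4 ^ i))
                = code (p.take i) + 4 ^ i * (27 + 64 * code v) := by
              change code p - 30 * 4 ^ i = _
              rw [e]
              generalize 4 ^ i = w
              have : w * (57 + 64 * code v) = w * (27 + 64 * code v) + 30 * w := by ring
              omega
            rw [← e3]
            exact h
    · exact ih h

theorem rOk_mem {ok : ℕ → Bool} {c : ℕ} {L : List ℕ} (h : rOk ok c L = true) {w : ℕ}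
    (hw : w ∈ L) :
    (c / w % 16 = 11 → ok (c + 3 * w) = true) ∧
    (c / w % 64 = 39 → ok (c + 15 * w) = true) := by
  induction L with
  | nil => simp at hw
  | cons a L ih =>
    rw [rOk, Bool.and_eq_true] at h
    rcases List.mem_cons.1 hw with rfl | hw'
    · have h := h.1
      cases h1 : Nat.beq (Nat.mod (Nat.div c w) 16) 11 with
      | true =>
        rw [h1, cond_true, force_eq] at h
        have h1' : c / w % 16 = 11 := Nat.eq_of_beq_eq_true h1
        refine ⟨fun _ => h, fun h2 => ?_⟩
        omega
      | false =>
        rw [h1, cond_false] at h
        have h1' : ¬ (c / w % 16 = 11) := fun e => by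
          have : Nat.beq (Nat.mod (Nat.div c w) 16) 11 = true := by rw [Nat.beq_eq]; exact e
          rw [h1] at this
          exact absurd this (by simp)
        refine ⟨fun e => absurd e h1', fun e => ?_⟩
        have h2 : Nat.beq (Nat.mod (Nat.div c w) 64) 39 = true := by rw [Nat.beq_eq]; exact e
        rw [h2, cond_true, force_eq] at h
        exact h
    · exact ih h.2 hw'

theorem rOk_spec {ok : ℕ → Bool} {p q : List Sq} {n : ℕ} (h : rOk ok (code p) (pows n) = true)
    (hp : p.length ≤ n) (hq : RightMove p q) : ok (code q) = true := by
  cases hq with
  | step u v =>
    have hw : 4 ^ u.length ∈ pows n := by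
      unfold pows
      refine List.mem_map.2 ⟨u.length, List.mem_range.2 ?_, rfl⟩
      rw [List.length_append, List.length_cons] at hp
      omega
    have h1 := (rOk_mem h hw).1
    rw [code_div] at h1
    have h2 := h1 (by simp only [code, dg]; omega)
    have e : code (u ++ empty :: frog :: v) + 3 * 4 ^ u.length
        = code (u ++ frog :: empty :: v) := by
      rw [code_append, code_append]
      simp only [code, dg]
      ring
    rw [← e]
    exact h2
  | jump u v =>
    have hw : 4 ^ u.length ∈ pows n := by
      unfold pows
      refine List.mem_map.2 ⟨u.length, List.mem_range.2 ?_, rfl⟩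
      rw [List.length_append, List.length_cons] at hp
      omega
    have h1 := (rOk_mem h hw).2
    rw [code_div] at h1
    have h2 := h1 (by simp only [code, dg]; omega)
    have e : code (u ++ empty :: toad :: frog :: v) + 15 * 4 ^ u.length
        = code (u ++ frog :: toad :: empty :: v) := by
      rw [code_append, code_append]
      simp only [code, dg]
      ring
    rw [← e]
    exact h2

theorem length_left {p q : List Sq} (h : LeftMove p q) : q.length = p.length := by
  cases h <;> simp

theorem length_right {p q : List Sq} (h : RightMove p q) : q.length = p.length := by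
  cases h <;> simp

/-- the test for a code in the set `t` (Right to move, no spare move) -/
def chk0 (t : NatTree) (P : List ℕ) (c : ℕ) : Bool := rOk (fun d => lOk t d P) c P

/-- the test for a code in the set `s` (Right to move, Right has one spare move) -/
def chk1 (t s : NatTree) (P : List ℕ) (c : ℕ) : Bool :=
  lOk t c P && rOk (fun d => lOk s d P) c P

/-! ## Games -/

namespace Game

theorem value_eq (p : List Sq) :
    value p = Game.mk {q : List Sq // LeftMove p q} {q : List Sq // RightMove p q}
      (fun q => value q.1) (fun q => value q.1) := by
  rw [value]

theorem add_mk (α β γ δ : Type) (L : α → Game) (R : β → Game) (M : γ → Game) (S : δ → Game) :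
    add (mk α β L R) (mk γ δ M S) =
      mk (α ⊕ γ) (β ⊕ δ)
        (Sum.elim (fun i => add (L i) (mk γ δ M S)) (fun k => add (mk α β L R) (M k)))
        (Sum.elim (fun j => add (R j) (mk γ δ M S)) (fun l => add (mk α β L R) (S l))) := rfl

/-- Right has no move -/
def NoRight : Game → Prop
  | mk _ β _ _ => IsEmpty β

/-- Right has no move after each of his moves -/
def OneRight : Game → Prop
  | mk _ β _ R => ∀ j : β, NoRight (R j)

theorem leftFirst_add_left {p q : List Sq} (A : Game) (h : LeftMove p q)
    (hq : LeftSecond (add (value q) A)) : LeftFirst (add (value p) A) := by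
  rw [value_eq p]
  cases A with
  | mk γ δ M S =>
    rw [add_mk]
    exact LeftFirst.intro _ (Sum.inl ⟨q, h⟩) hq

theorem leftSecond_add {p : List Sq} {A : Game}
    (h1 : ∀ q, RightMove p q → LeftFirst (add (value q) A))
    (h2 : ∀ j : A.RIdx, LeftFirst (add (value p) (A.right j))) :
    LeftSecond (add (value p) A) := by
  cases A with
  | mk γ δ M S =>
    rw [value_eq p, add_mk]
    refine LeftSecond.intro _ ?_
    intro j
    cases j with
    | inl q => exact h1 q.1 q.2
    | inr j =>
      have := h2 j
      rw [value_eq p] at this
      exact this

theorem main0 {t : NatTree} {n : ℕ} (ht : t.all (chk0 t (pows n)) = true) :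
    ∀ (m : ℕ) (p : List Sq), pot p ≤ m → p.length ≤ n → t.mem (code p) = true →
      ∀ A : Game, NoRight A → LeftSecond (add (value p) A) := by
  intro m
  induction m with
  | zero =>
    intro p hm hn hp A hA
    refine leftSecond_add (fun q hq => ?_) (fun j => ?_)
    · have := pot_right hq
      omega
    · cases A with
      | mk γ δ M S => exact (hA.false j).elim
  | succ m ih =>
    intro p hm hn hp A hA
    refine leftSecond_add (fun q hq => ?_) (fun j => ?_)
    · have h1 := NatTree.of_all ht hp
      have h2 := rOk_spec (ok := fun d => lOk t d (pows n)) h1 hn hq
      obtain ⟨r, hr, hrt⟩ := lOk_spec h2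
      have e1 := pot_right hq
      have e2 := pot_left hr
      have e3 := length_right hq
      have e4 := length_left hr
      exact leftFirst_add_left A hr (ih r (by omega) (by omega) hrt A hA)
    · cases A with
      | mk γ δ M S => exact (hA.false j).elim

theorem main1 {t s : NatTree} {n : ℕ} (ht : t.all (chk0 t (pows n)) = true)
    (hs : s.all (chk1 t s (pows n)) = true) :
    ∀ (m : ℕ) (p : List Sq), pot p ≤ m → p.length ≤ n → s.mem (code p) = true →
      ∀ A : Game, OneRight A → LeftSecond (add (value p) A) := by
  intro m
  induction m with
  | zero =>
    intro p hm hn hp A hA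
    refine leftSecond_add (fun q hq => ?_) (fun j => ?_)
    · have := pot_right hq
      omega
    · have h1 := NatTree.of_all hs hp
      rw [chk1, Bool.and_eq_true] at h1
      obtain ⟨r, hr, hrt⟩ := lOk_spec h1.1
      have := pot_left hr
      omega
  | succ m ih =>
    intro p hm hn hp A hA
    have h1 := NatTree.of_all hs hp
    rw [chk1, Bool.and_eq_true] at h1
    refine leftSecond_add (fun q hq => ?_) (fun j => ?_)
    · have h2 := rOk_spec (ok := fun d => lOk s d (pows n)) h1.2 hn hq
      obtain ⟨r, hr, hrt⟩ := lOk_spec h2
      have e1 := pot_right hq
      have e2 := pot_left hr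
      have e3 := length_right hq
      have e4 := length_left hr
      exact leftFirst_add_left A hr (ih r (by omega) (by omega) hrt A hA)
    · obtain ⟨r, hr, hrt⟩ := lOk_spec h1.1
      have e2 := pot_left hr
      have e4 := length_left hr
      refine leftFirst_add_left _ hr (main0 ht (pot r) r le_rfl (by omega) hrt _ ?_)
      cases A with
      | mk γ δ M S => exact hA j

/-- The two players cannot both have a winning strategy. -/
theorem consistent (G : Game) :
    ¬ (LeftFirst G ∧ RightSecond G) ∧ ¬ (LeftSecond G ∧ RightFirst G) := by
  induction G with
  | mk α β L R ihL ihR =>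
    constructor
    · rintro ⟨h1, h2⟩
      cases h1 with
      | intro _ i h1 =>
        cases h2 with
        | intro _ h2 => exact (ihL i).2 ⟨h1, h2 i⟩
    · rintro ⟨h1, h2⟩
      cases h2 with
      | intro _ j h2 =>
        cases h1 with
        | intro _ h1 => exact (ihR j).1 ⟨h1 j, h2⟩

theorem not_equal_of_leftFirst {G H : Game} (h : LeftFirst (sub G H)) : ¬ Equal G H :=
  fun e => (consistent _).1 ⟨h, e.2⟩

theorem oneRight_neg_one : OneRight (neg one) := by
  intro j
  exact inferInstanceAs (IsEmpty Empty)

theorem oneRight_neg_one_add_zero : OneRight (neg (add one zero)) := by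
  intro j
  cases j with
  | inl j => exact ⟨fun x => by cases x with
      | inl x => exact x.elim
      | inr x => exact x.elim⟩
  | inr j => exact j.elim

/-- From a winning set to the value of the game. -/
theorem greater_one {t s : NatTree} {n : ℕ} (ht : t.all (chk0 t (pows n)) = true)
    (hs : s.all (chk1 t s (pows n)) = true) {p : List Sq} (hn : p.length ≤ n)
    (hp : s.mem (code p) = true) (hf : lOk s (code p) (pows n) = true) :
    Greater (value p) one ∧ ¬ Equal (value p) one ∧ ¬ Equal (value p) (add one star) := by
  have key : ∀ A : Game, OneRight A → LeftSecond (add (value p) A) := fun A hA =>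
    main1 ht hs (pot p) p le_rfl hn hp A hA
  have hfirst : LeftFirst (sub (value p) one) := by
    obtain ⟨r, hr, hrt⟩ := lOk_spec hf
    have e4 := length_left hr
    exact leftFirst_add_left _ hr
      (main1 ht hs (pot r) r le_rfl (by omega) hrt _ oneRight_neg_one)
  refine ⟨⟨hfirst, key _ oneRight_neg_one⟩, not_equal_of_leftFirst hfirst, ?_⟩
  apply not_equal_of_leftFirst
  have hk := key _ oneRight_neg_one_add_zero
  unfold sub
  rw [value_eq p] at hk ⊢
  exact LeftFirst.intro _ (Sum.inr (Sum.inr ())) hk

end Game

end Pool.Agent.R798.Toads
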