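import Mathlib

/-!
# Conway games and the game of Toads and Frogs: definitions
-/

set_option autoImplicit false

namespace Pool.Agent.R798.Toads

/-- Partizan games in Conway's sense: a game is given by a family of Left options and a family of
Right options. -/
inductive Game : Type 1
  | mk (α β : Type) (L : α → Game) (R : β → Game) : Game

namespace Game

/-- the index type of the Left options -/
def LIdx : Game → Type
  | mk α _ _ _ => α

/-- the index type of the Right options -/
def RIdx : Game → Type
  | mk _ β _ _ => β

/-- the Left options -/
def left : (G : Game) → G.LIdx → Game
  | mk _ _ L _ => L

/-- the Right options -/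
def right : (G : Game) → G.RIdx → Game
  | mk _ _ _ R => R

/-- the game `0 = { | }` -/
def zero : Game := mk Empty Empty (fun e => e.elim) (fun e => e.elim)

/-- the game `1 = {0 | }` -/
def one : Game := mk Unit Empty (fun _ => zero) (fun e => e.elim)

/-- the game `* = {0 | 0}` -/
def star : Game := mk Unit Unit (fun _ => zero) (fun _ => zero)

/-- the negative of a game: the roles of the players are exchanged -/
def neg : Game → Game
  | mk α β L R => mk β α (fun j => neg (R j)) (fun i => neg (L i))

/-- the disjunctive sum of two games: the player to move makes a move in exactly one of the two
components -/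
noncomputable def add (G : Game) : Game → Game :=
  Game.rec (motive := fun _ => Game → Game)
    (fun α β _ _ IHL IHR H =>
      Game.rec (motive := fun _ => Game)
        (fun γ δ M S IHM IHS =>
          mk (α ⊕ γ) (β ⊕ δ)
            (Sum.elim (fun i => IHL i (mk γ δ M S)) IHM)
            (Sum.elim (fun j => IHR j (mk γ δ M S)) IHS)) H) G

/-- the difference `G - H` -/
noncomputable def sub (G H : Game) : Game := add G (neg H)

mutual
/-- Left, moving first, wins (a player with no legal move loses). -/
inductive LeftFirst : Game → Prop
  | intro (G : Game) (i : G.LIdx) : LeftSecond (G.left i) → LeftFirst G
/-- Left wins when Right moves first. -/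
inductive LeftSecond : Game → Prop
  | intro (G : Game) : (∀ j : G.RIdx, LeftFirst (G.right j)) → LeftSecond G
end

mutual
/-- Right, moving first, wins. -/
inductive RightFirst : Game → Prop
  | intro (G : Game) (j : G.RIdx) : RightSecond (G.right j) → RightFirst G
/-- Right wins when Left moves first. -/
inductive RightSecond : Game → Prop
  | intro (G : Game) : (∀ i : G.LIdx, RightFirst (G.left i)) → RightSecond G
end

/-- the second player wins, whoever moves first -/
def SecondPlayerWin (G : Game) : Prop := LeftSecond G ∧ RightSecond G

/-- Equality of games (of game values): `G - H` is a second-player win. -/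
def Equal (G H : Game) : Prop := SecondPlayerWin (sub G H)

/-- `G > H`: Left wins `G - H`, whoever moves first. -/
def Greater (G H : Game) : Prop := LeftFirst (sub G H) ∧ LeftSecond (sub G H)

end Game

/-- the contents of a square of the strip -/
inductive Sq : Type
  | toad : Sq
  | frog : Sq
  | empty : Sq

open Sq

/-- The moves of Left in Toads and Frogs: a toad moves one square to the right into an empty
square, or jumps to the right over exactly one frog into the empty square just beyond. -/
inductive LeftMove : List Sq → List Sq → Prop
  | step (u v : List Sq) : LeftMove (u ++ toad :: empty :: v) (u ++ empty :: toad :: v)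
  | jump (u v : List Sq) :
      LeftMove (u ++ toad :: frog :: empty :: v) (u ++ empty :: frog :: toad :: v)

/-- The moves of Right: a frog moves one square to the left into an empty square, or jumps to the
left over exactly one toad into the empty square just beyond. -/
inductive RightMove : List Sq → List Sq → Prop
  | step (u v : List Sq) : RightMove (u ++ empty :: frog :: v) (u ++ frog :: empty :: v)
  | jump (u v : List Sq) :
      RightMove (u ++ empty :: toad :: frog :: v) (u ++ frog :: toad :: empty :: v)

/-- `1` on toads, `0` elsewhere -/
def isToad : Sq → ℕ
  | toad => 1
  | frog => 0
  | empty => 0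

/-- `1` on frogs, `0` elsewhere -/
def isFrog : Sq → ℕ
  | toad => 0
  | frog => 1
  | empty => 0

/-- number of pairs (toad, other square to the right of it) -/
def invT : List Sq → ℕ
  | [] => 0
  | x :: v => isToad x * (v.map (fun y => 1 - isToad y)).sum + invT v

/-- number of pairs (frog, other square to the left of it) -/
def invF : List Sq → ℕ
  | [] => 0
  | x :: v => (1 - isFrog x) * (v.map isFrog).sum + invF v

/-- a number which decreases with every move -/
def pot (p : List Sq) : ℕ := invT p + invF p

theorem invT_append (u v : List Sq) :
    invT (u ++ v) = invT u + (u.map isToad).sum * (v.map (fun y => 1 - isToad y)).sum + invT v := by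
  induction u with
  | nil => simp [invT]
  | cons x u ih =>
    simp only [List.cons_append, invT, ih, List.map_append, List.sum_append, List.map_cons,
      List.sum_cons]
    ring

theorem invF_append (u v : List Sq) :
    invF (u ++ v) = invF u + (u.map (fun y => 1 - isFrog y)).sum * (v.map isFrog).sum + invF v := by
  induction u with
  | nil => simp [invF]
  | cons x u ih =>
    simp only [List.cons_append, invF, ih, List.map_append, List.sum_append, List.map_cons,
      List.sum_cons]
    ring

theorem pot_left {p q : List Sq} (h : LeftMove p q) : pot q < pot p := by
  cases h with
  | step u v =>
    simp only [pot, invT_append, invF_append, invT, invF, List.map_cons, List.sum_cons, isToad,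
      isFrog]
    simp only [Nat.sub_zero, Nat.sub_self, zero_add, one_mul, zero_mul]
    generalize (List.map isToad u).sum = a
    generalize (List.map (fun y => 1 - isToad y) v).sum = b
    generalize (List.map isFrog v).sum = c
    omega
  | jump u v =>
    simp only [pot, invT_append, invF_append, invT, invF, List.map_cons, List.sum_cons, isToad,
      isFrog]
    simp only [Nat.sub_zero, Nat.sub_self, zero_add, one_mul, zero_mul]
    generalize (List.map isToad u).sum = a
    generalize (List.map (fun y => 1 - isToad y) v).sum = b
    generalize (List.map isFrog v).sum = c
    ring_nf
    omega

theorem pot_right {p q : List Sq} (h : RightMove p q) : pot q < pot p := by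
  cases h with
  | step u v =>
    simp only [pot, invT_append, invF_append, invT, invF, List.map_cons, List.sum_cons, isToad,
      isFrog]
    simp only [Nat.sub_zero, Nat.sub_self, zero_add, one_mul, zero_mul]
    generalize (List.map isToad u).sum = a
    generalize (List.map (fun y => 1 - isToad y) v).sum = b
    generalize (List.map isFrog v).sum = c
    ring_nf
    omega
  | jump u v =>
    simp only [pot, invT_append, invF_append, invT, invF, List.map_cons, List.sum_cons, isToad,
      isFrog]
    simp only [Nat.sub_zero, Nat.sub_self, zero_add, one_mul, zero_mul]
    generalize (List.map isToad u).sum = a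
    generalize (List.map (fun y => 1 - isToad y) v).sum = b
    generalize (List.map isFrog v).sum = c
    ring_nf
    omega

/-- The game of Toads and Frogs played from a given position. -/
def value (p : List Sq) : Game :=
  Game.mk {q : List Sq // LeftMove p q} {q : List Sq // RightMove p q}
    (fun q => value q.1) (fun q => value q.1)
termination_by pot p
decreasing_by
  · exact pot_left q.2
  · exact pot_right q.2

/-- The position `T^a □^a F^(a-1)`. -/
def start (a : ℕ) : List Sq :=
  List.replicate a toad ++ List.replicate a empty ++ List.replicate (a - 1) frog

end Pool.Agent.R798.Toads
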